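import Mathlib
import Pool.Agent.Lib.MP_a763a9_pr.H59.Defs
import Pool.Agent.Lib.MP_a763a9_pr.H59.Final

/-! The pressure of the extended Ising model exists on every locally tree-like sequence. -/

namespace Pool.Agent.Results.MP_a763a9_pr.PressureExists

open MeasureTheory Pool.Agent.Lib.MP_a763a9_pr.H59

/-- For every locally tree-like sequence of random graphs `G n` on `n` vertices, every `β ≥ 0` and
all real `k`, `h`, the normalized logarithm of the partition function of the extended Ising model,
whose fields `k d_v + h` may take both signs, converges in probability to a constant. -/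
theorem result {Ω : ℕ → Type} [∀ n, MeasurableSpace (Ω n)] (P : ∀ n, Measure (Ω n))
    [∀ n, IsProbabilityMeasure (P n)] (G : ∀ n, Ω n → SimpleGraph (Fin n))
    (hG : LocallyTreeLike P G) (β k h : ℝ) (hβ : 0 ≤ β) :
    ∃ φ : ℝ, TendstoInProb P (fun n ω => Real.log (Z (G n ω) β k h) / n) φ :=
  main hG β k h hβ

end Pool.Agent.Results.MP_a763a9_pr.PressureExists
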